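import Pool.Agent.CTW.Fin

/-!
# Over `RCA_0`, Carlson's theorem for words implies Carlson's theorem for located words
-/

namespace Pool.Agent.Results.MP_2ae72d_lc.WordsLocatedWords

open RT22P Pool.Agent.CTW

/-- (1) In every model `(M, S)` of `RCA_0`, for every alphabet size `k` and every number `c` of colours in
`M`, Carlson's theorem for words is equivalent to Carlson's theorem for located words (and the function
`2 ^ x`, which is used to code finite sets, exists and is unique).  (2) Hence Hindman's theorem implies
Carlson's theorem for located words over `RCA_0` (in all models) if and only if it implies Carlson's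
theorem for words over `RCA_0`. -/
theorem result :
    (∀ (M : Type) [Zero M] [One M] [Add M] [Mul M] [LT M] (S : Set (Set M)), IsRCA0 S →
      (∃! p, IsPow S p) ∧ ∀ k c : M, CT S k c ↔ CTloc S k c) ∧
    ((∀ (M : Type) [Zero M] [One M] [Add M] [Mul M] [LT M] (S : Set (Set M)), IsRCA0 S →
        HT S → ∀ k c : M, 0 < k → CTloc S k c) ↔
      (∀ (M : Type) [Zero M] [One M] [Add M] [Mul M] [LT M] (S : Set (Set M)), IsRCA0 S →
        HT S → ∀ k c : M, 0 < k → CT S k c)) := by
  refine ⟨fun M _ _ _ _ _ S hS => raw hS, fun h M _ _ _ _ _ S hS hH k c hk => ?_,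
    fun h M _ _ _ _ _ S hS hH k c hk => ?_⟩
  · exact ((raw hS).2 k c).2 (h M S hS hH k c hk)
  · exact ((raw hS).2 k c).1 (h M S hS hH k c hk)

end Pool.Agent.Results.MP_2ae72d_lc.WordsLocatedWords
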